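import Mathlib

/-!
Gaussian integrals with polynomial factors, used for the Fourier transform of `x_i x_j / |x|^3`.
-/

set_option autoImplicit false
open MeasureTheory Complex Real Set Filter Topology

namespace Pool.Agent.J4.H70.Maz

/-- one-dimensional Gaussian integral -/
lemma g0 {s : ℝ} (hs : 0 < s) (z : ℝ) :
    ∫ x : ℝ, cexp (-(π * s : ℂ) * (x : ℂ) ^ 2 + (2 * π * I * z) * x) =
      ((s ^ (-(1 / 2) : ℝ) : ℝ) : ℂ) * cexp (-(π * (z : ℂ) ^ 2 / s)) := by
  have hs' : (s : ℂ) ≠ 0 := by exact_mod_cast hs.ne'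
  have hpi : (π : ℂ) ≠ 0 := by exact_mod_cast Real.pi_ne_zero
  have h := integral_cexp_quadratic (b := -(π * s : ℂ)) (by
    simp only [neg_re, mul_re, ofReal_re, ofReal_im, mul_zero, sub_zero]
    have := mul_pos Real.pi_pos hs
    linarith) (2 * π * I * z) 0
  simp only [add_zero] at h
  rw [h]
  congr 1
  · rw [neg_neg, show (π : ℂ) / (π * s) = ((s⁻¹ : ℝ) : ℂ) by push_cast; field_simp]
    rw [Real.rpow_neg hs.le, ← Real.inv_rpow hs.le, Complex.ofReal_cpow (by positivity)]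
    norm_num
  · congr 1
    rw [zero_sub]
    field_simp
    ring_nf
    rw [I_sq]
    ring

lemma g1_integrable {s : ℝ} (hs : 0 < s) (z : ℝ) :
    Integrable fun x : ℝ => (x : ℂ) * cexp (-(π * s : ℂ) * (x : ℂ) ^ 2 + (2 * π * I * z) * x) := by
  have h := (integrable_mul_exp_neg_mul_sq (b := π * s) (by positivity)).norm
  refine Integrable.mono' h ?_ (ae_of_all _ fun x => ?_)
  · apply Continuous.aestronglyMeasurable
    fun_prop
  · rw [norm_mul, norm_mul, Complex.norm_exp]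
    apply le_of_eq
    have : (-(π * s : ℂ) * (x : ℂ) ^ 2 + (2 * π * I * z) * x).re = -(π * s) * x ^ 2 := by
      have : (-(π * s : ℂ) * (x : ℂ) ^ 2 + (2 * π * I * z) * x) =
        ((-(π * s) * x ^ 2 : ℝ) : ℂ) + ((2 * π * z * x : ℝ) : ℂ) * I := by push_cast; ring
      rw [this, add_re, ofReal_re, re_ofReal_mul, I_re, mul_zero, add_zero]
    rw [this]
    simp [Real.norm_eq_abs, abs_of_pos (Real.exp_pos _)]

lemma g0_integrable {s : ℝ} (hs : 0 < s) (z : ℝ) :
    Integrable fun x : ℝ => cexp (-(π * s : ℂ) * (x : ℂ) ^ 2 + (2 * π * I * z) * x) := by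
  have h := integrable_cexp_quadratic (b := (π * s : ℂ)) (by
    simp only [mul_re, ofReal_re, ofReal_im, mul_zero, sub_zero]
    exact mul_pos Real.pi_pos hs) (2 * π * I * z) 0
  simpa using h

/-- one-dimensional Gaussian integral with a factor `x` -/
lemma g1 {s : ℝ} (hs : 0 < s) (z : ℝ) :
    ∫ x : ℝ, (x : ℂ) * cexp (-(π * s : ℂ) * (x : ℂ) ^ 2 + (2 * π * I * z) * x) =
      (I * z / s) * (((s ^ (-(1 / 2) : ℝ) : ℝ) : ℂ) * cexp (-(π * (z : ℂ) ^ 2 / s))) := by
  rw [← g0 hs z]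
  have hs' : (s : ℂ) ≠ 0 := by exact_mod_cast hs.ne'
  have hpi : (π : ℂ) ≠ 0 := by exact_mod_cast Real.pi_ne_zero
  set F : ℝ → ℂ := fun x => cexp (-(π * s : ℂ) * (x : ℂ) ^ 2 + (2 * π * I * z) * x) with hF
  have hderiv : ∀ x : ℝ, HasDerivAt F
      (-(2 * π * s : ℂ) * ((x : ℂ) * F x) + (2 * π * I * z) * F x) x := by
    intro x
    have h1 : HasDerivAt (fun x : ℝ => (x : ℂ)) 1 x := Complex.ofRealCLM.hasDerivAt
    have h2 : HasDerivAt (fun x : ℝ => -(π * s : ℂ) * (x : ℂ) ^ 2 + (2 * π * I * z) * x)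
        (-(π * s : ℂ) * (2 * (x : ℂ)) + (2 * π * I * z)) x := by
      have h3 := ((h1.pow 2).const_mul (-(π * s : ℂ))).add (h1.const_mul (2 * π * I * z))
      refine HasDerivAt.congr_deriv h3 ?_
      push_cast
      ring
    have h4 := h2.cexp
    convert h4 using 1
    simp only [hF]
    ring
  have hint := integral_eq_zero_of_hasDerivAt_of_integrable hderiv
    (((g1_integrable hs z).const_mul _).add ((g0_integrable hs z).const_mul _))
    (g0_integrable hs z)
  rw [integral_add ((g1_integrable hs z).const_mul _) ((g0_integrable hs z).const_mul _),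
    integral_const_mul, integral_const_mul] at hint
  have h5 : (∫ x : ℝ, (x : ℂ) * F x) * (2 * π * s) = (2 * π * I * z) * ∫ x : ℝ, F x := by
    linear_combination -hint
  have h6 : (2 * π * s : ℂ) ≠ 0 := by
    refine mul_ne_zero (mul_ne_zero two_ne_zero hpi) hs'
  change (∫ x : ℝ, (x : ℂ) * F x) = (I * z / s) * ∫ x : ℝ, F x
  generalize (∫ x : ℝ, (x : ℂ) * F x) = u at h5 ⊢
  generalize (∫ x : ℝ, F x) = v at h5 ⊢
  field_simp
  field_simp at h5
  linear_combination h5

end Pool.Agent.J4.H70.Maz
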