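import Mathlib
import Pool.Agent.J4.H70.Mazya.Gauss

/-!
The Fourier transform of `x_i x_j / |x|^3` on `ℝ^3`, `i ≠ j`.
-/

set_option autoImplicit false
open MeasureTheory Complex Real Set Filter Topology

namespace Pool.Agent.J4.H70.Maz

/-- three-dimensional space -/
abbrev E3 := EuclideanSpace ℝ (Fin 3)

lemma prod_ite {M : Type*} [CommMonoid M] (i j : Fin 3) (hij : i ≠ j) (a : Fin 3 → M) :
    ∏ k, (if k = i ∨ k = j then a k else 1) = a i * a j := by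
  rw [Fin.prod_univ_three]
  fin_cases i <;> fin_cases j <;> simp at hij ⊢ <;> exact mul_comm _ _

/-- three-dimensional Gaussian integral with a factor `x_i x_j` -/
lemma g3 {s : ℝ} (hs : 0 < s) (i j : Fin 3) (hij : i ≠ j) (z : E3) :
    ∫ x : E3, ((x i * x j : ℝ) : ℂ) * cexp (-(π * s : ℂ) * (‖x‖ : ℂ) ^ 2 +
        2 * π * I * ((inner ℝ z x : ℝ) : ℂ)) =
      -((z i * z j * s ^ (-(7 / 2) : ℝ) * Real.exp (-(π * ‖z‖ ^ 2 / s)) : ℝ) : ℂ) := by
  rw [← (PiLp.volume_preserving_toLp (Fin 3)).integral_comp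
    (MeasurableEquiv.toLp 2 _).measurableEmbedding]
  have e1 : ∀ v : Fin 3 → ℝ,
      ((((WithLp.toLp 2 v : E3) i) * ((WithLp.toLp 2 v : E3) j) : ℝ) : ℂ) *
        cexp (-(π * s : ℂ) * (‖(WithLp.toLp 2 v : E3)‖ : ℂ) ^ 2 +
        2 * π * I * ((inner ℝ z (WithLp.toLp 2 v : E3) : ℝ) : ℂ)) =
      ∏ k, ((if k = i ∨ k = j then ((v k : ℝ) : ℂ) else 1) *
        cexp (-(π * s : ℂ) * (v k : ℂ) ^ 2 + (2 * π * I * z k) * v k)) := by
    intro v
    rw [Finset.prod_mul_distrib, prod_ite i j hij (fun k => ((v k : ℝ) : ℂ)), ← Complex.exp_sum]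
    congr 1
    · push_cast
      rfl
    · congr 1
      rw [Finset.sum_add_distrib, ← Finset.mul_sum]
      congr 1
      · congr 1
        rw [← ofReal_pow, EuclideanSpace.norm_sq_eq]
        push_cast
        apply Finset.sum_congr rfl
        intro k _
        rw [← ofReal_pow, ← ofReal_pow]
        simp
      · rw [PiLp.inner_apply]
        push_cast
        rw [Finset.mul_sum]
        apply Finset.sum_congr rfl
        intro k _
        simp only [RCLike.inner_apply, conj_trivial]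
        push_cast
        ring
  simp_rw [e1]
  rw [integral_fintype_prod_volume_eq_prod (f := fun (k : Fin 3) (x : ℝ) =>
    (if k = i ∨ k = j then (x : ℂ) else 1) *
        cexp (-(π * s : ℂ) * (x : ℂ) ^ 2 + (2 * π * I * z k) * x))]
  have e2 : ∀ k : Fin 3, (∫ x : ℝ, (if k = i ∨ k = j then (x : ℂ) else 1) *
        cexp (-(π * s : ℂ) * (x : ℂ) ^ 2 + (2 * π * I * z k) * x)) =
      (if k = i ∨ k = j then (I * z k / s) else 1) *
        (((s ^ (-(1 / 2) : ℝ) : ℝ) : ℂ) * cexp (-(π * (z k : ℂ) ^ 2 / s))) := by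
    intro k
    split_ifs with h
    · exact g1 hs (z k)
    · simp only [one_mul]
      exact g0 hs (z k)
  simp_rw [e2]
  rw [Finset.prod_mul_distrib, prod_ite i j hij (fun k => (I * z k / s : ℂ)),
    Finset.prod_mul_distrib, ← Complex.exp_sum, Finset.prod_const, Finset.card_univ,
    Fintype.card_fin]
  have e3 : (∑ k, -(π * (z k : ℂ) ^ 2 / s)) = ((-(π * ‖z‖ ^ 2 / s) : ℝ) : ℂ) := by
    rw [EuclideanSpace.norm_sq_eq]
    push_cast
    rw [Finset.mul_sum, Finset.sum_div, Finset.sum_neg_distrib]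
    congr 1
    apply Finset.sum_congr rfl
    intro k _
    rw [← ofReal_pow, ← ofReal_pow]
    simp
  rw [e3, ← ofReal_exp]
  have hs' : (s : ℂ) ≠ 0 := by exact_mod_cast hs.ne'
  have e4 : s ^ (-(7 / 2) : ℝ) = (s ^ (-(1 / 2) : ℝ)) ^ 3 / s ^ 2 := by
    rw [eq_div_iff (by positivity), ← Real.rpow_natCast (s ^ (-(1 / 2) : ℝ)) 3,
      ← Real.rpow_mul hs.le, ← Real.rpow_natCast s 2, ← Real.rpow_add hs]
    norm_num
  rw [e4]
  push_cast
  field_simp
  rw [I_sq]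
  ring

lemma abs_apply_le (x : E3) (i : Fin 3) : |x i| ≤ ‖x‖ := PiLp.norm_apply_le x i

lemma ae_ne : ∀ᵐ ξ : E3, ξ ≠ 0 := by
  simp [ae_iff, measure_singleton]

lemma fub (w : ℝ → E3 → ℝ) (W : E3 → ℝ) (g : E3 → ℂ) (hw : Measurable (Function.uncurry w))
    (hw0 : ∀ s, 0 < s → ∀ ξ, 0 ≤ w s ξ)
    (hint : ∀ ξ, ξ ≠ 0 → IntegrableOn (fun s => w s ξ) (Ioi 0))
    (hW : ∀ ξ, ξ ≠ 0 → ∫ s in Ioi 0, w s ξ = W ξ) (hg : AEStronglyMeasurable g volume)
    (hWg : Integrable (fun ξ => (W ξ : ℂ) * g ξ)) :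
    ∫ s in Ioi (0 : ℝ), ∫ ξ, (w s ξ : ℂ) * g ξ = ∫ ξ, (W ξ : ℂ) * g ξ := by
  have hmeas : AEStronglyMeasurable (Function.uncurry fun s ξ => (w s ξ : ℂ) * g ξ)
      ((volume.restrict (Ioi (0 : ℝ))).prod volume) := by
    apply AEStronglyMeasurable.mul
    · exact (Complex.measurable_ofReal.comp hw).aestronglyMeasurable
    · exact hg.comp_snd
  have hI : Integrable (Function.uncurry fun s ξ => (w s ξ : ℂ) * g ξ)
      ((volume.restrict (Ioi (0 : ℝ))).prod volume) := by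
    rw [integrable_prod_iff' hmeas]
    constructor
    · filter_upwards [ae_ne] with ξ hξ
      exact (Complex.ofRealCLM.integrable_comp (hint ξ hξ)).mul_const (g ξ)
    · refine hWg.norm.congr ?_
      filter_upwards [ae_ne] with ξ hξ
      simp only [Function.uncurry, norm_mul]
      rw [integral_mul_const]
      congr 1
      rw [← hW ξ hξ, norm_real, Real.norm_eq_abs,
        abs_of_nonneg (setIntegral_nonneg measurableSet_Ioi fun s hs => hw0 s hs ξ)]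
      apply setIntegral_congr_fun measurableSet_Ioi
      intro s hs
      simp [abs_of_nonneg (hw0 s hs ξ)]
  rw [integral_integral_swap hI]
  apply integral_congr_ae
  filter_upwards [ae_ne] with ξ hξ
  rw [integral_mul_const, ← hW ξ hξ, integral_complex_ofReal]

lemma int1 {r : ℝ} (hr : 0 < r) : ∫ s in Ioi (0 : ℝ), s * Real.exp (-(r * s)) = 1 / r ^ 2 := by
  have h := Real.integral_rpow_mul_exp_neg_mul_Ioi (a := 2) (by norm_num) hr
  rw [show (2 : ℝ) - 1 = 1 by norm_num] at h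
  simp only [Real.rpow_one] at h
  rw [h, Real.Gamma_two, mul_one, Real.rpow_two, one_div_pow]

lemma int2 {r : ℝ} (hr : 0 < r) :
    ∫ s in Ioi (0 : ℝ), s ^ (-(5 / 2) : ℝ) * Real.exp (-(r / s)) = √π / (2 * r * √r) := by
  have h := Real.integral_rpow_mul_exp_neg_mul_Ioi (a := 3 / 2) (by norm_num) hr
  rw [show (3 / 2 : ℝ) - 1 = 1 / 2 by norm_num] at h
  have h2 := integral_comp_rpow_Ioi (fun u : ℝ => u ^ (1 / 2 : ℝ) * Real.exp (-(r * u)))
    (p := -1) (by norm_num)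
  rw [h] at h2
  have h3 : ∀ s ∈ Ioi (0 : ℝ), (|(-1 : ℝ)| * s ^ ((-1 : ℝ) - 1)) •
      ((s ^ (-1 : ℝ)) ^ (1 / 2 : ℝ) * Real.exp (-(r * s ^ (-1 : ℝ)))) =
      s ^ (-(5 / 2) : ℝ) * Real.exp (-(r / s)) := by
    intro s hs
    have hs' : (0 : ℝ) < s := hs
    rw [Real.rpow_neg_one, ← div_eq_mul_inv, abs_neg, abs_one, one_mul, smul_eq_mul, ← mul_assoc]
    congr 1
    rw [← Real.rpow_neg_one s, ← Real.rpow_mul hs'.le, ← Real.rpow_add hs']
    norm_num
  rw [setIntegral_congr_fun measurableSet_Ioi h3] at h2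
  rw [h2, show (3 / 2 : ℝ) = 1 / 2 + 1 by norm_num, Real.Gamma_add_one (by norm_num),
    Real.Gamma_one_half_eq, Real.rpow_add (by positivity), Real.rpow_one, ← Real.sqrt_eq_rpow,
    Real.sqrt_div (by norm_num), Real.sqrt_one]
  have : 0 < √r := Real.sqrt_pos.2 hr
  field_simp

lemma w1_int {ξ : E3} (hξ : ξ ≠ 0) :
    ∫ s in Ioi (0 : ℝ), s * Real.exp (-(π * ‖ξ‖ ^ 2 * s)) = 1 / (π * ‖ξ‖ ^ 2) ^ 2 := by
  have : 0 < ‖ξ‖ := norm_pos_iff.2 hξ
  exact int1 (by positivity)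

lemma w2_int {z : E3} (hz : z ≠ 0) :
    ∫ s in Ioi (0 : ℝ), s ^ (-(5 / 2) : ℝ) * Real.exp (-(π * ‖z‖ ^ 2 / s)) =
      1 / (2 * π * ‖z‖ ^ 3) := by
  have h0 : 0 < ‖z‖ := norm_pos_iff.2 hz
  rw [int2 (by positivity), Real.sqrt_mul Real.pi_pos.le, Real.sqrt_sq h0.le]
  have : 0 < √π := Real.sqrt_pos.2 Real.pi_pos
  field_simp

lemma w1_on {ξ : E3} (hξ : ξ ≠ 0) :
    IntegrableOn (fun s => s * Real.exp (-(π * ‖ξ‖ ^ 2 * s))) (Ioi 0) := by
  have h := w1_int hξ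
  have h0 : 0 < ‖ξ‖ := norm_pos_iff.2 hξ
  by_contra hc
  rw [integral_undef hc] at h
  have : 0 < 1 / (π * ‖ξ‖ ^ 2) ^ 2 := by positivity
  linarith

lemma w2_on {z : E3} (hz : z ≠ 0) :
    IntegrableOn (fun s => s ^ (-(5 / 2) : ℝ) * Real.exp (-(π * ‖z‖ ^ 2 / s))) (Ioi 0) := by
  have h := w2_int hz
  have h0 : 0 < ‖z‖ := norm_pos_iff.2 hz
  by_contra hc
  rw [integral_undef hc] at h
  have : 0 < 1 / (2 * π * ‖z‖ ^ 3) := by positivity
  linarith

/-- integrability of `ξ_i ξ_j exp (- π s |ξ|^2)` -/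
lemma gint {s : ℝ} (hs : 0 < s) (i j : Fin 3) (hij : i ≠ j) :
    Integrable fun ξ : E3 => |ξ i * ξ j| * Real.exp (-(π * s) * ‖ξ‖ ^ 2) := by
  have h := g3 hs i j hij (WithLp.toLp 2 fun _ => 1)
  have h1 : Integrable fun x : E3 => ((x i * x j : ℝ) : ℂ) *
      cexp (-(π * s : ℂ) * (‖x‖ : ℂ) ^ 2 +
        2 * π * I * ((inner ℝ (WithLp.toLp 2 fun _ => 1 : E3) x : ℝ) : ℂ)) := by
    by_contra hc
    rw [integral_undef hc] at h
    have h2 : (0 : ℝ) < s ^ (-(7 / 2) : ℝ) *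
        Real.exp (-(π * ‖(WithLp.toLp 2 fun _ => 1 : E3)‖ ^ 2 / s)) := by positivity
    have h3 : (-((s ^ (-(7 / 2) : ℝ) *
        Real.exp (-(π * ‖(WithLp.toLp 2 fun _ => 1 : E3)‖ ^ 2 / s)) : ℝ)) : ℂ) = 0 := by
      rw [h]
      norm_num
    rw [neg_eq_zero] at h3
    have h4 := Complex.ofReal_eq_zero.1 h3
    linarith
  refine h1.norm.congr (ae_of_all _ fun x => ?_)
  simp only
  rw [norm_mul, norm_real, Real.norm_eq_abs, Complex.norm_exp]
  congr 2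
  have : (-(π * s : ℂ) * (‖x‖ : ℂ) ^ 2 +
        2 * π * I * ((inner ℝ (WithLp.toLp 2 fun _ => 1 : E3) x : ℝ) : ℂ)) =
        ((-(π * s) * ‖x‖ ^ 2 : ℝ) : ℂ) +
        ((2 * π * inner ℝ (WithLp.toLp 2 fun _ => 1 : E3) x : ℝ) : ℂ) * I := by
    push_cast
    ring
  rw [this, add_re, ofReal_re, re_ofReal_mul, I_re, mul_zero, add_zero]

end Pool.Agent.J4.H70.Maz
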