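import Mathlib
import Pool.Agent.J4.H70.Mazya.Fourier

/-!
The multiplier identity for the kernel `x_i x_j / |x|^3` on `ℝ^3`, `i ≠ j`.
-/

set_option autoImplicit false
open MeasureTheory Complex Real Set Filter Topology
open scoped FourierTransform ContDiff

namespace Pool.Agent.J4.H70.Maz

/-- the Fourier transform of `f`, written out -/
noncomputable def fh (f : E3 → ℝ) (ξ : E3) : ℂ :=
  ∫ y, cexp (-(2 * (π : ℂ) * I * ((inner ℝ y ξ : ℝ) : ℂ))) * ((f y : ℝ) : ℂ)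

lemma fh_eq (f : E3 → ℝ) : fh f = 𝓕 (fun y => (f y : ℂ)) := by
  funext ξ
  rw [Real.fourier_eq']
  unfold fh
  congr 1
  funext y
  rw [smul_eq_mul]
  congr 2
  push_cast
  ring

section
variable {f : E3 → ℝ} (hf : ContDiff ℝ ∞ f) (hc : HasCompactSupport f)
include hf hc

lemma schwartz : ∃ S : SchwartzMap E3 ℂ, ∀ y, S y = (f y : ℂ) :=
  ⟨(hc.comp_left (g := fun r : ℝ => (r : ℂ)) (by simp)).toSchwartzMap
    (Complex.ofRealCLM.contDiff.comp hf), fun _ => rfl⟩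

lemma fh_schwartz : ∃ S : SchwartzMap E3 ℂ, ∀ y, S y = fh f y := by
  obtain ⟨S, hS⟩ := schwartz hf hc
  refine ⟨𝓕 S, fun y => ?_⟩
  rw [fh_eq, SchwartzMap.fourier_coe, show (S : E3 → ℂ) = fun y => (f y : ℂ) from funext hS]

lemma fh_integrable : Integrable (fh f) := by
  obtain ⟨S, hS⟩ := fh_schwartz hf hc
  exact S.integrable.congr (ae_of_all _ hS)

lemma fh_cont : Continuous (fh f) := by
  obtain ⟨S, hS⟩ := fh_schwartz hf hc
  exact S.continuous.congr hS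

omit hf hc in
lemma fh_bdd : ∃ C, 0 ≤ C ∧ ∀ ξ, ‖fh f ξ‖ ≤ C := by
  refine ⟨∫ y, ‖f y‖, integral_nonneg fun _ => norm_nonneg _, fun ξ => ?_⟩
  refine (norm_integral_le_integral_norm _).trans (le_of_eq ?_)
  congr 1
  funext y
  rw [norm_mul, norm_real]
  have : ‖cexp (-(2 * (π : ℂ) * I * ((inner ℝ y ξ : ℝ) : ℂ)))‖ = 1 := by
    have h : -(2 * (π : ℂ) * I * ((inner ℝ y ξ : ℝ) : ℂ)) =
      ((-(2 * π * inner ℝ y ξ) : ℝ) : ℂ) * I := by push_cast; ring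
    rw [h, Complex.norm_exp_ofReal_mul_I]
  rw [this, one_mul]

lemma lemA {s : ℝ} (hs : 0 < s) (i j : Fin 3) (hij : i ≠ j) (x : E3) :
    ∫ ξ, ((Real.exp (-(π * ‖ξ‖ ^ 2 * s)) : ℝ) : ℂ) * (((ξ i * ξ j : ℝ) : ℂ) * fh f ξ *
      cexp (2 * π * I * ((inner ℝ x ξ : ℝ) : ℂ))) =
    -((s ^ (-(7 / 2) : ℝ) : ℝ) : ℂ) * ∫ z, ((Real.exp (-(π * ‖z‖ ^ 2 / s)) : ℝ) : ℂ) *
      ((z i * z j * f (x - z) : ℝ) : ℂ) := by
  set F : E3 → E3 → ℂ := fun ξ y => ((ξ i * ξ j : ℝ) : ℂ) *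
    cexp (-(π * s : ℂ) * (‖ξ‖ : ℂ) ^ 2 + 2 * π * I * ((inner ℝ (x - y) ξ : ℝ) : ℂ)) *
    ((f y : ℝ) : ℂ) with hF
  have hfi : Integrable f := hf.continuous.integrable_of_hasCompactSupport hc
  have hI : Integrable (Function.uncurry F) (volume.prod volume) := by
    refine Integrable.mono' ((gint hs i j hij).mul_prod hfi.norm) ?_ (ae_of_all _ ?_)
    · apply Continuous.aestronglyMeasurable
      have := hf.continuous
      simp only [hF, Function.uncurry_def]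
      fun_prop
    · rintro ⟨ξ, y⟩
      simp only [hF, Function.uncurry]
      rw [norm_mul, norm_mul, norm_real, norm_real, Complex.norm_exp]
      apply le_of_eq
      congr 2
      rw [add_re]
      have h1 : (-(π * s : ℂ) * (‖ξ‖ : ℂ) ^ 2).re = -(π * s) * ‖ξ‖ ^ 2 := by
        rw [show -(π * s : ℂ) * (‖ξ‖ : ℂ) ^ 2 = ((-(π * s) * ‖ξ‖ ^ 2 : ℝ) : ℂ) by push_cast; ring,
          ofReal_re]
      have h2 : (2 * π * I * ((inner ℝ (x - y) ξ : ℝ) : ℂ)).re = 0 := by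
        rw [show 2 * π * I * ((inner ℝ (x - y) ξ : ℝ) : ℂ) =
          ((2 * π * inner ℝ (x - y) ξ : ℝ) : ℂ) * I by push_cast; ring, re_ofReal_mul, I_re,
          mul_zero]
      rw [h1, h2, add_zero]
  have e1 : ∀ ξ : E3, ((Real.exp (-(π * ‖ξ‖ ^ 2 * s)) : ℝ) : ℂ) * (((ξ i * ξ j : ℝ) : ℂ) * fh f ξ *
      cexp (2 * π * I * ((inner ℝ x ξ : ℝ) : ℂ))) = ∫ y, F ξ y := by
    intro ξ
    simp only [hF, fh]
    rw [show ∀ a b c d : ℂ, a * (b * c * d) = (a * b * d) * c by intros; ring,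
      ← integral_const_mul]
    congr 1
    funext y
    rw [ofReal_exp, inner_sub_left, real_inner_comm]
    rw [show ∀ a b c d e : ℂ, a * b * c * (d * e) = b * (a * c * d) * e by intros; ring,
      ← Complex.exp_add, ← Complex.exp_add]
    congr 3
    push_cast
    ring
  have e2 : ∀ y : E3, ∫ ξ, F ξ y = -((s ^ (-(7 / 2) : ℝ) : ℝ) : ℂ) *
      (((Real.exp (-(π * ‖x - y‖ ^ 2 / s)) : ℝ) : ℂ) *
      (((x - y) i * (x - y) j * f (x - (x - y)) : ℝ) : ℂ)) := by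
    intro y
    simp only [hF]
    rw [integral_mul_const, g3 hs i j hij (x - y), sub_sub_cancel]
    push_cast
    ring
  simp_rw [e1]
  rw [integral_integral_swap hI]
  simp_rw [e2]
  rw [integral_const_mul]
  congr 1
  exact integral_sub_left_eq_self (fun z : E3 => ((Real.exp (-(π * ‖z‖ ^ 2 / s)) : ℝ) : ℂ) *
      ((z i * z j * f (x - z) : ℝ) : ℂ)) volume x

end

lemma loc (k : ℕ) (hk : k ≤ 2) :
    IntegrableOn (fun z : E3 => (‖z‖ ^ k)⁻¹) (Metric.ball 0 1) := by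
  rw [integrableOn_fun_norm_addHaar (μ := volume) (f := fun y : ℝ => (y ^ k)⁻¹)]
  have h : ∀ y ∈ Ioo (0 : ℝ) 1, y ^ (2 - k) =
      y ^ (Module.finrank ℝ E3 - 1) • (y ^ k)⁻¹ := by
    intro y hy
    have hy0 : y ≠ 0 := hy.1.ne'
    rw [finrank_euclideanSpace, Fintype.card_fin, smul_eq_mul, ← div_eq_mul_inv,
      eq_div_iff (pow_ne_zero _ hy0), ← pow_add]
    congr 1
    omega
  refine IntegrableOn.congr_fun ?_ h measurableSet_Ioo
  exact ((continuous_pow _).integrableOn_Icc (a := 0) (b := 1)).mono_set Ioo_subset_Icc_self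

lemma int_of_bdd (k : ℕ) (hk : k ≤ 2) (G : E3 → ℝ) (C : ℝ) (hC : ∀ z, |G z| ≤ C)
    (hG : Integrable G) : Integrable fun z : E3 => (‖z‖ ^ k)⁻¹ * G z := by
  have h0 : Integrable fun z : E3 =>
      (Metric.ball (0 : E3) 1).indicator (fun z => (‖z‖ ^ k)⁻¹ * C) z + |G z| :=
    (IntegrableOn.integrable_indicator ((loc k hk).mul_const C) measurableSet_ball).add hG.abs
  refine h0.mono' ?_ (ae_of_all _ fun z => ?_)
  · exact (by fun_prop : Measurable fun z : E3 => (‖z‖ ^ k)⁻¹).aestronglyMeasurable.mul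
      hG.aestronglyMeasurable
  · rw [norm_mul, norm_inv, norm_pow, norm_norm, Real.norm_eq_abs]
    by_cases hz : z ∈ Metric.ball (0 : E3) 1
    · rw [indicator_of_mem hz]
      have : (‖z‖ ^ k)⁻¹ * |G z| ≤ (‖z‖ ^ k)⁻¹ * C :=
        mul_le_mul_of_nonneg_left (hC z) (by positivity)
      linarith [abs_nonneg (G z)]
    · rw [indicator_of_notMem hz, zero_add]
      have h1 : 1 ≤ ‖z‖ := by
        simpa [Metric.mem_ball, dist_zero_right] using hz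
      have h2 : (‖z‖ ^ k)⁻¹ ≤ 1 := inv_le_one_of_one_le₀ (one_le_pow₀ h1)
      calc (‖z‖ ^ k)⁻¹ * |G z| ≤ 1 * |G z| := mul_le_mul_of_nonneg_right h2 (abs_nonneg _)
        _ = |G z| := one_mul _

lemma bdd_of_cpt {f : E3 → ℝ} (hf : Continuous f) (hc : HasCompactSupport f) :
    ∃ C, ∀ z, |f z| ≤ C := by
  obtain ⟨C, hC⟩ := hc.exists_bound_of_continuous hf
  exact ⟨C, hC⟩

/-- the kernel -/
noncomputable def kk (i j : Fin 3) (z : E3) : ℝ := z i * z j / ‖z‖ ^ 3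

lemma kk_abs_le (i j : Fin 3) (z : E3) : |kk i j z| ≤ (‖z‖ ^ 1)⁻¹ := by
  unfold kk
  by_cases hz : z = 0
  · simp [hz]
  have h0 : 0 < ‖z‖ := norm_pos_iff.2 hz
  rw [abs_div, abs_mul, abs_of_pos (pow_pos h0 3), pow_one, div_le_iff₀ (pow_pos h0 3)]
  have h1 := abs_apply_le z i
  have h2 := abs_apply_le z j
  calc |z i| * |z j| ≤ ‖z‖ * ‖z‖ := mul_le_mul h1 h2 (abs_nonneg _) h0.le
    _ = ‖z‖⁻¹ * ‖z‖ ^ 3 := by field_simp

lemma kk_measurable (i j : Fin 3) : Measurable (kk i j) := by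
  unfold kk
  fun_prop

lemma kk_mul_int (i j : Fin 3) {f : E3 → ℝ} (hf : Continuous f) (hc : HasCompactSupport f)
    (x : E3) : Integrable fun z => kk i j z * f (x - z) := by
  obtain ⟨C, hC⟩ := bdd_of_cpt hf hc
  have hfi : Integrable fun z => f (x - z) :=
    (hf.integrable_of_hasCompactSupport hc).comp_sub_left x
  refine (int_of_bdd 1 (by norm_num) _ C (fun z => hC (x - z)) hfi).mono ?_ (ae_of_all _ fun z => ?_)
  · exact (kk_measurable i j).aestronglyMeasurable.mul hfi.aestronglyMeasurable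
  · rw [norm_mul, norm_mul]
    refine mul_le_mul_of_nonneg_right ?_ (norm_nonneg _)
    rw [Real.norm_eq_abs, Real.norm_eq_abs]
    exact (kk_abs_le i j z).trans (le_abs_self _)

/-- The multiplier identity. -/
theorem kernel_ft {f : E3 → ℝ} (hf : ContDiff ℝ ∞ f) (hc : HasCompactSupport f) (i j : Fin 3)
    (hij : i ≠ j) (x : E3) :
    ((∫ y, kk i j (x - y) * f y : ℝ) : ℂ) =
      ∫ ξ, ((1 / (π * ‖ξ‖ ^ 2) ^ 2 : ℝ) : ℂ) * ((-(2 * π) : ℂ) * (((ξ i * ξ j : ℝ) : ℂ) * fh f ξ *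
      cexp (2 * π * I * ((inner ℝ x ξ : ℝ) : ℂ)))) := by
  obtain ⟨C, hC0, hC⟩ := fh_bdd (f := f)
  set g1 : E3 → ℂ := fun ξ => ((ξ i * ξ j : ℝ) : ℂ) * fh f ξ *
      cexp (2 * π * I * ((inner ℝ x ξ : ℝ) : ℂ)) with hg1
  have hcont := fh_cont hf hc
  have hg1c : Continuous g1 := by
    simp only [hg1]
    fun_prop
  have hnorm1 : ∀ ξ, ‖g1 ξ‖ ≤ ‖ξ‖ ^ 2 * ‖fh f ξ‖ := by
    intro ξ
    simp only [hg1]
    have h : ‖cexp (2 * π * I * ((inner ℝ x ξ : ℝ) : ℂ))‖ = 1 := by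
      rw [show 2 * π * I * ((inner ℝ x ξ : ℝ) : ℂ) = ((2 * π * inner ℝ x ξ : ℝ) : ℂ) * I by
        push_cast; ring, Complex.norm_exp_ofReal_mul_I]
    rw [norm_mul, norm_mul, h, mul_one, norm_real, Real.norm_eq_abs, abs_mul]
    refine mul_le_mul_of_nonneg_right ?_ (norm_nonneg _)
    rw [sq]
    exact mul_le_mul (abs_apply_le _ _) (abs_apply_le _ _) (abs_nonneg _) (norm_nonneg _)
  have hW1 : Integrable fun ξ : E3 => ((1 / (π * ‖ξ‖ ^ 2) ^ 2 : ℝ) : ℂ) * g1 ξ := by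
    have h := int_of_bdd 2 le_rfl (fun ξ => ‖fh f ξ‖) C
      (fun ξ => by rw [abs_of_nonneg (norm_nonneg _)]; exact hC ξ) (fh_integrable hf hc).norm
    refine (h.const_mul (1 / π ^ 2)).mono' ?_ ?_
    · refine AEStronglyMeasurable.mul ?_ hg1c.aestronglyMeasurable
      exact (Complex.measurable_ofReal.comp (by fun_prop)).aestronglyMeasurable
    · filter_upwards [ae_ne] with ξ hξ
      have h0 : 0 < ‖ξ‖ := norm_pos_iff.2 hξ
      rw [norm_mul, norm_real, Real.norm_eq_abs, abs_of_nonneg (by positivity)]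
      refine (mul_le_mul_of_nonneg_left (hnorm1 ξ) (by positivity)).trans (le_of_eq ?_)
      field_simp
  have h1 := fub (fun s ξ => s * Real.exp (-(π * ‖ξ‖ ^ 2 * s))) (fun ξ => 1 / (π * ‖ξ‖ ^ 2) ^ 2) g1
    (by unfold Function.uncurry; fun_prop) (fun s hs ξ => by positivity) (fun ξ hξ => w1_on hξ)
    (fun ξ hξ => w1_int hξ) hg1c.aestronglyMeasurable hW1
  have h2 : ∀ s ∈ Ioi (0 : ℝ), ∫ ξ, ((s * Real.exp (-(π * ‖ξ‖ ^ 2 * s)) : ℝ) : ℂ) * g1 ξ =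
      -∫ z, ((s ^ (-(5 / 2) : ℝ) * Real.exp (-(π * ‖z‖ ^ 2 / s)) : ℝ) : ℂ) *
      ((z i * z j * f (x - z) : ℝ) : ℂ) := by
    intro s hs
    have hs' : (0 : ℝ) < s := hs
    have h3 := lemA hf hc hs' i j hij x
    have h4 : ∀ ξ, ((s * Real.exp (-(π * ‖ξ‖ ^ 2 * s)) : ℝ) : ℂ) * g1 ξ =
        (s : ℂ) * (((Real.exp (-(π * ‖ξ‖ ^ 2 * s)) : ℝ) : ℂ) * g1 ξ) := by
      intro ξ
      push_cast
      ring
    simp_rw [h4]
    rw [integral_const_mul, h3, ← neg_mul_eq_neg_mul, mul_neg, ← mul_assoc, ← integral_const_mul]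
    congr 2
    funext z
    have h5 : s * s ^ (-(7 / 2) : ℝ) = s ^ (-(5 / 2) : ℝ) := by
      nth_rewrite 1 [← Real.rpow_one s]
      rw [← Real.rpow_add hs']
      norm_num
    rw [← h5]
    push_cast
    ring
  set h : E3 → ℂ := fun z => ((z i * z j * f (x - z) : ℝ) : ℂ) with hh
  have hfc := hf.continuous
  have hhc : Continuous h := by
    simp only [hh]
    fun_prop
  have e2 : ∀ z : E3, ((1 / (2 * π * ‖z‖ ^ 3) : ℝ) : ℂ) * h z =
      ((1 / (2 * π) * (kk i j z * f (x - z)) : ℝ) : ℂ) := by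
    intro z
    simp only [hh, kk]
    rw [← ofReal_mul]
    congr 1
    rw [mul_comm (2 * π) (‖z‖ ^ 3), ← div_div]
    ring
  have hW2 : Integrable fun z : E3 => ((1 / (2 * π * ‖z‖ ^ 3) : ℝ) : ℂ) * h z := by
    simp_rw [e2]
    exact Complex.ofRealCLM.integrable_comp ((kk_mul_int i j hf.continuous hc x).const_mul _)
  have h6 := fub (fun s z => s ^ (-(5 / 2) : ℝ) * Real.exp (-(π * ‖z‖ ^ 2 / s)))
    (fun z => 1 / (2 * π * ‖z‖ ^ 3)) h
    (by unfold Function.uncurry; fun_prop) (fun s hs ξ => by positivity) (fun ξ hξ => w2_on hξ)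
    (fun ξ hξ => w2_int hξ) hhc.aestronglyMeasurable hW2
  have e7 : ∀ ξ : E3, ((1 / (π * ‖ξ‖ ^ 2) ^ 2 : ℝ) : ℂ) * ((-(2 * π) : ℂ) * g1 ξ) =
    (-(2 * π) : ℂ) * (((1 / (π * ‖ξ‖ ^ 2) ^ 2 : ℝ) : ℂ) * g1 ξ) := by intro ξ; ring
  change _ = ∫ ξ : E3, ((1 / (π * ‖ξ‖ ^ 2) ^ 2 : ℝ) : ℂ) * ((-(2 * π) : ℂ) * g1 ξ)
  simp_rw [e7]
  rw [integral_const_mul, ← h1, setIntegral_congr_fun measurableSet_Ioi h2, integral_neg, h6]
  beta_reduce
  simp_rw [e2]
  rw [integral_complex_ofReal, integral_const_mul]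
  have h8 : ∫ z, kk i j z * f (x - z) = ∫ y, kk i j (x - y) * f y := by
    have := integral_sub_left_eq_self (fun z : E3 => kk i j z * f (x - z)) volume x
    rw [← this]
    congr 1
    funext y
    rw [sub_sub_cancel]
  rw [h8]
  have hpi : (π : ℂ) ≠ 0 := by exact_mod_cast Real.pi_ne_zero
  push_cast
  field_simp

end Pool.Agent.J4.H70.Maz
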