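import Mathlib
import Pool.Agent.J4.H70.Mazya.Kernel

/-!
Estimates for the convolution of the kernel `x_i x_j / |x|^3` with a bump function.
-/

set_option autoImplicit false
open MeasureTheory Real Set Filter Topology
open scoped ContDiff

namespace Pool.Agent.J4.H70.Maz

lemma locR (k : ℕ) (hk : k ≤ 2) (R : ℝ) :
    IntegrableOn (fun z : E3 => (‖z‖ ^ k)⁻¹) (Metric.ball 0 R) := by
  rw [integrableOn_fun_norm_addHaar (μ := volume) (f := fun y : ℝ => (y ^ k)⁻¹)]
  have h : ∀ y ∈ Ioo (0 : ℝ) R, y ^ (2 - k) =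
      y ^ (Module.finrank ℝ E3 - 1) • (y ^ k)⁻¹ := by
    intro y hy
    have hy0 : y ≠ 0 := hy.1.ne'
    rw [finrank_euclideanSpace, Fintype.card_fin, smul_eq_mul, ← div_eq_mul_inv,
      eq_div_iff (pow_ne_zero _ hy0), ← pow_add]
    congr 1
    omega
  refine IntegrableOn.congr_fun ?_ h measurableSet_Ioo
  exact ((continuous_pow _).integrableOn_Icc (a := 0) (b := R)).mono_set Ioo_subset_Icc_self

lemma kk_locInt (i j : Fin 3) : LocallyIntegrable (kk i j) := by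
  intro x
  refine ⟨Metric.ball 0 (‖x‖ + 1), Metric.isOpen_ball.mem_nhds (by simp), ?_⟩
  refine (locR 1 (by norm_num) (‖x‖ + 1)).mono' (kk_measurable i j).aestronglyMeasurable
    (ae_of_all _ fun z => ?_)
  rw [Real.norm_eq_abs]
  exact kk_abs_le i j z

/-- the bump function -/
noncomputable def bump : ContDiffBump (0 : E3) := ⟨1 / 2, 1, by norm_num, by norm_num⟩

/-- its mass -/
noncomputable def mass : ℝ := ∫ y, bump y

lemma mass_pos : 0 < mass := bump.integral_pos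

lemma bump_cont : Continuous (bump : E3 → ℝ) := bump.continuous

lemma bump_cpt : HasCompactSupport (bump : E3 → ℝ) := bump.hasCompactSupport

lemma bump_int : Integrable (bump : E3 → ℝ) :=
  bump_cont.integrable_of_hasCompactSupport bump_cpt

lemma bump_zero {y : E3} (hy : 1 ≤ ‖y‖) : bump y = 0 := by
  apply bump.zero_of_le_dist
  rw [dist_zero_right]
  exact hy

/-- the convolution of the kernel with the bump function -/
noncomputable def GG (i j : Fin 3) (x : E3) : ℝ := ∫ y, kk i j (x - y) * bump y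

lemma GG_eq (i j : Fin 3) (x : E3) : GG i j x = ∫ z, kk i j z * bump (x - z) := by
  have := integral_sub_left_eq_self (fun z : E3 => kk i j z * bump (x - z)) volume x
  rw [← this]
  unfold GG
  congr 1
  funext y
  rw [sub_sub_cancel]

lemma GG_cont (i j : Fin 3) : Continuous (GG i j) := by
  have h := bump_cpt.continuous_convolution_right (ContinuousLinearMap.mul ℝ ℝ)
    (kk_locInt i j) bump_cont
  refine h.congr fun x => ?_
  rw [GG_eq]
  rfl

lemma GG_bdd (i j : Fin 3) : ∃ C, 0 < C ∧ ∀ x, |GG i j x| ≤ C := by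
  refine ⟨(∫ z in Metric.ball (0 : E3) 1, (‖z‖ ^ 1)⁻¹) + mass + 1, ?_, fun x => ?_⟩
  · have h1 : 0 ≤ ∫ z in Metric.ball (0 : E3) 1, (‖z‖ ^ 1)⁻¹ :=
      integral_nonneg fun z => by positivity
    have := mass_pos
    positivity
  · rw [GG_eq]
    have hI := kk_mul_int i j bump_cont bump_cpt x
    have hb : Integrable fun z => bump (x - z) := bump_int.comp_sub_left x
    have h0 : Integrable fun z : E3 =>
        (Metric.ball (0 : E3) 1).indicator (fun z => (‖z‖ ^ 1)⁻¹) z + bump (x - z) :=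
      (IntegrableOn.integrable_indicator (locR 1 (by norm_num) 1) measurableSet_ball).add hb
    have h1 : |∫ z, kk i j z * bump (x - z)| ≤ ∫ z, ((Metric.ball (0 : E3) 1).indicator
        (fun z => (‖z‖ ^ 1)⁻¹) z + bump (x - z)) := by
      refine (norm_integral_le_integral_norm (fun z => kk i j z * bump (x - z))).trans ?_
      refine integral_mono hI.norm h0 fun z => ?_
      simp only
      rw [norm_mul, Real.norm_eq_abs, Real.norm_eq_abs, abs_of_nonneg bump.nonneg]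
      by_cases hz : z ∈ Metric.ball (0 : E3) 1
      · rw [indicator_of_mem hz]
        have : |kk i j z| * bump (x - z) ≤ (‖z‖ ^ 1)⁻¹ * 1 :=
          mul_le_mul (kk_abs_le i j z) bump.le_one bump.nonneg (by positivity)
        linarith [bump.nonneg (x := x - z)]
      · rw [indicator_of_notMem hz, zero_add]
        have h1 : 1 ≤ ‖z‖ := by
          simpa [Metric.mem_ball, dist_zero_right] using hz
        have h2 : |kk i j z| ≤ 1 := (kk_abs_le i j z).trans
          (inv_le_one_of_one_le₀ (one_le_pow₀ h1))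
        calc |kk i j z| * bump (x - z) ≤ 1 * bump (x - z) :=
              mul_le_mul_of_nonneg_right h2 bump.nonneg
          _ = bump (x - z) := one_mul _
    rw [integral_add (IntegrableOn.integrable_indicator (locR 1 (by norm_num) 1)
      measurableSet_ball) hb, integral_indicator measurableSet_ball,
      integral_sub_left_eq_self (fun z : E3 => bump z) volume x] at h1
    have h3 : (∫ z, bump z) = mass := rfl
    rw [h3] at h1
    linarith

lemma kk_smul (i j : Fin 3) {t : ℝ} (ht : 0 < t) (x : E3) : kk i j (t • x) = t⁻¹ * kk i j x := by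
  unfold kk
  simp only [PiLp.smul_apply, smul_eq_mul, norm_smul, Real.norm_eq_abs, abs_of_pos ht]
  rw [mul_pow]
  by_cases hx : ‖x‖ = 0
  · simp [hx]
  field_simp

/-- difference estimate for the kernel -/
lemma kk_diff (i j : Fin 3) {x y : E3} (hx : 2 ≤ ‖x‖) (hy : ‖y‖ ≤ 1) :
    |kk i j (x - y) - kk i j x| ≤ 58 / ‖x‖ ^ 2 := by
  set z := x - y with hz
  have h1 : ‖x‖ - 1 ≤ ‖z‖ := by
    have := norm_sub_norm_le x y
    linarith
  have h2 : ‖z‖ ≤ ‖x‖ + 1 := by
    have := norm_sub_le x y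
    linarith
  have hX : 0 < ‖x‖ := by linarith
  have hZ : 0 < ‖z‖ := by linarith
  have hzy : ∀ k, |z k - x k| ≤ 1 := by
    intro k
    have : z k - x k = -(y k) := by simp [hz]
    rw [this, abs_neg]
    exact (abs_apply_le y k).trans hy
  have h3 : |z i * z j - x i * x j| ≤ ‖z‖ + ‖x‖ := by
    have e : z i * z j - x i * x j = z i * (z j - x j) + (z i - x i) * x j := by ring
    rw [e]
    refine (abs_add_le _ _).trans ?_
    rw [abs_mul, abs_mul]
    have a1 := abs_apply_le z i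
    have a2 := abs_apply_le x j
    have a3 := hzy i
    have a4 := hzy j
    have b1 : |z i| * |z j - x j| ≤ ‖z‖ * 1 := mul_le_mul a1 a4 (abs_nonneg _) hZ.le
    have b2 : |z i - x i| * |x j| ≤ 1 * ‖x‖ := mul_le_mul a3 a2 (abs_nonneg _) zero_le_one
    linarith
  have h4 : |x i * x j| ≤ ‖x‖ ^ 2 := by
    rw [abs_mul, sq]
    exact mul_le_mul (abs_apply_le _ _) (abs_apply_le _ _) (abs_nonneg _) hX.le
  have h5 : |‖x‖ ^ 3 - ‖z‖ ^ 3| ≤ ‖x‖ ^ 2 + ‖x‖ * ‖z‖ + ‖z‖ ^ 2 := by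
    have e : ‖x‖ ^ 3 - ‖z‖ ^ 3 = (‖x‖ - ‖z‖) * (‖x‖ ^ 2 + ‖x‖ * ‖z‖ + ‖z‖ ^ 2) := by ring
    rw [e, abs_mul, abs_of_nonneg (by positivity : 0 ≤ ‖x‖ ^ 2 + ‖x‖ * ‖z‖ + ‖z‖ ^ 2)]
    have : |‖x‖ - ‖z‖| ≤ 1 := by
      rw [abs_le]
      constructor <;> linarith
    calc _ ≤ 1 * (‖x‖ ^ 2 + ‖x‖ * ‖z‖ + ‖z‖ ^ 2) :=
          mul_le_mul_of_nonneg_right this (by positivity)
      _ = _ := one_mul _
  have e : kk i j z - kk i j x = ((z i * z j - x i * x j) * ‖x‖ ^ 3 +
      x i * x j * (‖x‖ ^ 3 - ‖z‖ ^ 3)) / (‖z‖ ^ 3 * ‖x‖ ^ 3) := by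
    unfold kk
    field_simp
    ring
  rw [e, abs_div, abs_of_pos (by positivity : 0 < ‖z‖ ^ 3 * ‖x‖ ^ 3)]
  rw [div_le_div_iff₀ (by positivity) (by positivity)]
  have h6 : |(z i * z j - x i * x j) * ‖x‖ ^ 3 + x i * x j * (‖x‖ ^ 3 - ‖z‖ ^ 3)| ≤
      (‖z‖ + ‖x‖) * ‖x‖ ^ 3 + ‖x‖ ^ 2 * (‖x‖ ^ 2 + ‖x‖ * ‖z‖ + ‖z‖ ^ 2) := by
    refine (abs_add_le _ _).trans ?_
    rw [abs_mul, abs_mul (x i * x j), abs_of_pos (pow_pos hX 3)]
    exact add_le_add (mul_le_mul_of_nonneg_right h3 (by positivity))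
      (mul_le_mul h4 h5 (abs_nonneg _) (by positivity))
  refine (mul_le_mul_of_nonneg_right h6 (by positivity)).trans ?_
  have hz1 : ‖x‖ / 2 ≤ ‖z‖ := by linarith
  have hz2 : ‖z‖ ≤ 3 / 2 * ‖x‖ := by linarith
  have h7 : (‖z‖ + ‖x‖) * ‖x‖ ^ 3 + ‖x‖ ^ 2 * (‖x‖ ^ 2 + ‖x‖ * ‖z‖ + ‖z‖ ^ 2) ≤
      29 / 4 * ‖x‖ ^ 4 := by
    have a1 : (‖z‖ + ‖x‖) * ‖x‖ ^ 3 ≤ (3 / 2 * ‖x‖ + ‖x‖) * ‖x‖ ^ 3 := by gcongr
    have a2 : ‖x‖ ^ 2 * (‖x‖ ^ 2 + ‖x‖ * ‖z‖ + ‖z‖ ^ 2) ≤
      ‖x‖ ^ 2 * (‖x‖ ^ 2 + ‖x‖ * (3 / 2 * ‖x‖) + (3 / 2 * ‖x‖) ^ 2) := by gcongr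
    calc _ ≤ _ := add_le_add a1 a2
      _ = _ := by ring
  have h8 : (‖x‖ / 2) ^ 3 ≤ ‖z‖ ^ 3 := by gcongr
  calc ((‖z‖ + ‖x‖) * ‖x‖ ^ 3 + ‖x‖ ^ 2 * (‖x‖ ^ 2 + ‖x‖ * ‖z‖ + ‖z‖ ^ 2)) * ‖x‖ ^ 2
      ≤ 29 / 4 * ‖x‖ ^ 4 * ‖x‖ ^ 2 := mul_le_mul_of_nonneg_right h7 (by positivity)
    _ = 58 * ((‖x‖ / 2) ^ 3 * ‖x‖ ^ 3) := by ring
    _ ≤ 58 * (‖z‖ ^ 3 * ‖x‖ ^ 3) := by gcongr

lemma GG_far (i j : Fin 3) {x : E3} (hx : 2 ≤ ‖x‖) :
    |GG i j x - mass * kk i j x| ≤ 58 * mass / ‖x‖ ^ 2 := by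
  have hI : Integrable fun y => kk i j (x - y) * bump y := by
    have h := (kk_mul_int i j bump_cont bump_cpt x).comp_sub_left x
    simpa using h
  have h1 : GG i j x - mass * kk i j x = ∫ y, (kk i j (x - y) - kk i j x) * bump y := by
    simp_rw [sub_mul]
    rw [integral_sub hI (bump_int.const_mul _), integral_const_mul]
    unfold GG mass
    ring
  rw [h1]
  refine (norm_integral_le_integral_norm (fun y => (kk i j (x - y) - kk i j x) * bump y)).trans ?_
  have h2 : ∫ y, 58 / ‖x‖ ^ 2 * bump y = 58 * mass / ‖x‖ ^ 2 := by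
    rw [integral_const_mul]
    unfold mass
    ring
  rw [← h2]
  refine integral_mono ?_ (bump_int.const_mul _) fun y => ?_
  · have : Integrable fun y => (kk i j (x - y) - kk i j x) * bump y := by
      simp_rw [sub_mul]
      exact hI.sub (bump_int.const_mul _)
    exact this.norm
  · simp only
    rw [norm_mul, Real.norm_eq_abs, Real.norm_eq_abs, abs_of_nonneg bump.nonneg]
    by_cases hy : 1 ≤ ‖y‖
    · rw [bump_zero hy]
      simp
    · exact mul_le_mul_of_nonneg_right (kk_diff i j hx (not_le.1 hy).le) bump.nonneg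

/-- lower bound near the diagonal -/
lemma GG_low (i j : Fin 3) {t : ℝ} (ht : 2 ≤ t) {x : E3} (hx : ∀ k, t ≤ x k ∧ x k ≤ 3 * t) :
    mass / (1372 * t) ≤ GG i j x := by
  have hI : Integrable fun y => kk i j (x - y) * bump y := by
    have h := (kk_mul_int i j bump_cont bump_cpt x).comp_sub_left x
    simpa using h
  have h2 : ∫ y, 1 / (1372 * t) * bump y = mass / (1372 * t) := by
    rw [integral_const_mul]
    unfold mass
    ring
  rw [← h2]
  unfold GG
  refine integral_mono (bump_int.const_mul _) hI fun y => ?_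
  simp only
  by_cases hy : 1 ≤ ‖y‖
  · rw [bump_zero hy]
    simp
  · refine mul_le_mul_of_nonneg_right ?_ bump.nonneg
    have hy' := (not_le.1 hy).le
    set z := x - y with hz
    have hzk : ∀ k, t / 2 ≤ z k ∧ z k ≤ 4 * t := by
      intro k
      have h3 := abs_le.1 ((abs_apply_le y k).trans hy')
      have h4 : z k = x k - y k := by simp [hz]
      have h5 := hx k
      constructor <;> linarith
    have hn : ‖z‖ ^ 2 ≤ (7 * t) ^ 2 := by
      rw [EuclideanSpace.norm_sq_eq, Fin.sum_univ_three]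
      simp only [Real.norm_eq_abs, sq_abs]
      have h0 := hzk 0
      have h1 := hzk 1
      have h2 := hzk 2
      nlinarith
    have hn' : ‖z‖ ≤ 7 * t := by
      exact (pow_le_pow_iff_left₀ (norm_nonneg _) (by linarith) two_ne_zero).1 hn
    have hz0 : 0 < ‖z‖ := by
      have h0 := hzk 0
      have := abs_apply_le z 0
      have h1 := le_abs_self (z 0)
      linarith
    unfold kk
    rw [div_le_div_iff₀ (by positivity) (by positivity)]
    have h6 : (t / 2) * (t / 2) ≤ z i * z j :=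
      mul_le_mul (hzk i).1 (hzk j).1 (by linarith) (by linarith [(hzk i).1])
    have h7 : ‖z‖ ^ 3 ≤ (7 * t) ^ 3 := by gcongr
    calc 1 * ‖z‖ ^ 3 ≤ (7 * t) ^ 3 := by linarith
      _ = (t / 2) * (t / 2) * (1372 * t) := by ring
      _ ≤ z i * z j * (1372 * t) := by gcongr

end Pool.Agent.J4.H70.Maz
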