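import Mathlib
import Pool.Agent.J4.H70.Mazya.Bound

/-!
A sequence of test functions with bounded `L^1` norm along which the integral of `Φ` diverges.
-/

set_option autoImplicit false
open MeasureTheory Real Set Filter Topology
open scoped ContDiff

namespace Pool.Agent.J4.H70.Maz

/-- the test functions -/
noncomputable def ff (n : ℕ) (y : E3) : ℝ := bump y - 27 ^ n * bump ((3 : ℝ) ^ n • y)

/-- the convolutions of the test functions -/
noncomputable def HH (n : ℕ) (i j : Fin 3) (x : E3) : ℝ :=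
  GG i j x - 3 ^ n * GG i j ((3 : ℝ) ^ n • x)

/-- the nonlinearity -/
noncomputable def PP (y : Fin 3 → ℝ) : ℝ := max 0 (-(y 0 * y 1 * y 2))

lemma ff_smooth (n : ℕ) : ContDiff ℝ ∞ (ff n) := by
  unfold ff
  refine ContDiff.sub bump.contDiff (contDiff_const.mul ?_)
  exact bump.contDiff.comp (contDiff_id.const_smul ((3 : ℝ) ^ n))

lemma bumpn_cpt (n : ℕ) : HasCompactSupport fun y : E3 => bump ((3 : ℝ) ^ n • y) :=
  bump_cpt.comp_smul (by positivity)

lemma ff_cpt (n : ℕ) : HasCompactSupport (ff n) :=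
  bump_cpt.sub ((bumpn_cpt n).mul_left)

lemma scale_int (n : ℕ) (h : E3 → ℝ) :
    ∫ y, h ((3 : ℝ) ^ n • y) = ((27 : ℝ) ^ n)⁻¹ * ∫ y, h y := by
  rw [Measure.integral_comp_smul, finrank_euclideanSpace, Fintype.card_fin, smul_eq_mul,
    abs_of_pos (by positivity), ← pow_mul, mul_comm n 3, pow_mul]
  norm_num

lemma bumpn_int (n : ℕ) : Integrable fun y : E3 => bump ((3 : ℝ) ^ n • y) :=
  (bump_cont.comp (continuous_const_smul ((3 : ℝ) ^ n))).integrable_of_hasCompactSupport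
    (bumpn_cpt n)

lemma ff_mean (n : ℕ) : ∫ y, ff n y = 0 := by
  unfold ff
  rw [integral_sub bump_int ((bumpn_int n).const_mul _), integral_const_mul,
    scale_int n (fun y => bump y), ← mul_assoc, mul_inv_cancel₀ (by positivity), one_mul, sub_self]

lemma ff_norm (n : ℕ) : ∫ y, |ff n y| ≤ 2 * mass := by
  have h : ∫ y, |ff n y| ≤ ∫ y, (bump y + 27 ^ n * bump ((3 : ℝ) ^ n • y)) := by
    refine integral_mono ?_ (bump_int.add ((bumpn_int n).const_mul _)) fun y => ?_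
    · exact (bump_int.sub ((bumpn_int n).const_mul _)).abs
    · simp only [ff]
      refine (abs_sub _ _).trans ?_
      rw [abs_of_nonneg bump.nonneg, abs_of_nonneg (mul_nonneg (by positivity) bump.nonneg)]
  refine h.trans (le_of_eq ?_)
  rw [integral_add bump_int ((bumpn_int n).const_mul _), integral_const_mul,
    scale_int n (fun y => bump y), ← mul_assoc, mul_inv_cancel₀ (by positivity), one_mul]
  unfold mass
  ring

lemma conv_ff (n : ℕ) (i j : Fin 3) (x : E3) :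
    ∫ y, kk i j (x - y) * ff n y = HH n i j x := by
  have hI : ∀ f : E3 → ℝ, Continuous f → HasCompactSupport f →
      Integrable fun y => kk i j (x - y) * f y := by
    intro f hf hc
    have h := (kk_mul_int i j hf hc x).comp_sub_left x
    simpa using h
  have h1 := hI bump bump_cont bump_cpt
  have h2 := hI (fun y => bump ((3 : ℝ) ^ n • y))
    (bump_cont.comp (continuous_const_smul ((3 : ℝ) ^ n))) (bumpn_cpt n)
  unfold ff HH
  have e : ∀ y, kk i j (x - y) * (bump y - 27 ^ n * bump ((3 : ℝ) ^ n • y)) =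
      kk i j (x - y) * bump y - 27 ^ n * (kk i j (x - y) * bump ((3 : ℝ) ^ n • y)) := by
    intro y
    ring
  simp_rw [e]
  rw [integral_sub h1 (h2.const_mul _), integral_const_mul]
  congr 1
  have h3 := scale_int n (fun u => kk i j (x - ((3 : ℝ) ^ n)⁻¹ • u) * bump u)
  have h4 : ∀ y : E3, ((3 : ℝ) ^ n)⁻¹ • (3 : ℝ) ^ n • y = y := by
    intro y
    rw [smul_smul, inv_mul_cancel₀ (by positivity), one_smul]
  simp only [h4] at h3
  rw [h3, ← mul_assoc, mul_inv_cancel₀ (by positivity), one_mul]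
  unfold GG
  rw [← integral_const_mul]
  congr 1
  funext u
  have h5 : x - ((3 : ℝ) ^ n)⁻¹ • u = ((3 : ℝ) ^ n)⁻¹ • ((3 : ℝ) ^ n • x - u) := by
    rw [smul_sub, h4]
  rw [h5, kk_smul i j (by positivity), inv_inv]
  ring

lemma HH_cont (n : ℕ) (i j : Fin 3) : Continuous (HH n i j) := by
  unfold HH
  have := GG_cont i j
  fun_prop

lemma HH_bdd (n : ℕ) (i j : Fin 3) : ∃ M, 0 < M ∧ ∀ x, |HH n i j x| ≤ M / (1 + ‖x‖) ^ 2 := by
  obtain ⟨C, hC0, hC⟩ := GG_bdd i j
  have hm := mass_pos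
  refine ⟨261 * mass + 9 * (C * (1 + 3 ^ n)), by positivity, fun x => ?_⟩
  rw [le_div_iff₀ (by positivity)]
  by_cases hx : 2 ≤ ‖x‖
  · have h1 := GG_far i j hx
    have hx' : 2 ≤ ‖(3 : ℝ) ^ n • x‖ := by
      rw [norm_smul, Real.norm_eq_abs, abs_of_pos (by positivity)]
      have : (1 : ℝ) ≤ 3 ^ n := one_le_pow₀ (by norm_num)
      nlinarith
    have h2 := GG_far i j hx'
    rw [kk_smul i j (by positivity), norm_smul, Real.norm_eq_abs,
      abs_of_pos (by positivity : (0 : ℝ) < 3 ^ n)] at h2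
    have e : HH n i j x = (GG i j x - mass * kk i j x) -
        3 ^ n * (GG i j ((3 : ℝ) ^ n • x) - mass * (((3 : ℝ) ^ n)⁻¹ * kk i j x)) := by
      unfold HH
      field_simp
      ring
    have h3 : |HH n i j x| ≤ 58 * mass / ‖x‖ ^ 2 + 3 ^ n * (58 * mass / (3 ^ n * ‖x‖) ^ 2) := by
      rw [e]
      refine (abs_sub _ _).trans (add_le_add h1 ?_)
      rw [abs_mul, abs_of_pos (by positivity : (0 : ℝ) < 3 ^ n)]
      exact mul_le_mul_of_nonneg_left h2 (by positivity)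
    have hX : 0 < ‖x‖ := by linarith
    have h4 : (3 : ℝ) ^ n * (58 * mass / (3 ^ n * ‖x‖) ^ 2) ≤ 58 * mass / ‖x‖ ^ 2 := by
      have : (3 : ℝ) ^ n * (58 * mass / (3 ^ n * ‖x‖) ^ 2) =
        (58 * mass / ‖x‖ ^ 2) * ((3 : ℝ) ^ n)⁻¹ := by
        field_simp
      rw [this]
      have h5 : ((3 : ℝ) ^ n)⁻¹ ≤ 1 := inv_le_one_of_one_le₀ (one_le_pow₀ (by norm_num))
      exact mul_le_of_le_one_right (by positivity) h5
    have h6 : |HH n i j x| ≤ 116 * mass / ‖x‖ ^ 2 := by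
      have : 116 * mass / ‖x‖ ^ 2 = 58 * mass / ‖x‖ ^ 2 + 58 * mass / ‖x‖ ^ 2 := by ring
      linarith
    have h7 : (1 + ‖x‖) ^ 2 ≤ 9 / 4 * ‖x‖ ^ 2 := by nlinarith
    calc |HH n i j x| * (1 + ‖x‖) ^ 2 ≤ 116 * mass / ‖x‖ ^ 2 * (9 / 4 * ‖x‖ ^ 2) :=
          mul_le_mul h6 h7 (by positivity) (by positivity)
      _ = 261 * mass := by field_simp; ring
      _ ≤ _ := by
        have : 0 ≤ 9 * (C * (1 + 3 ^ n)) := by positivity
        linarith
  · have hx' : ‖x‖ ≤ 2 := (not_le.1 hx).le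
    have h1 : |HH n i j x| ≤ C * (1 + 3 ^ n) := by
      unfold HH
      refine (abs_sub _ _).trans ?_
      rw [abs_mul, abs_of_pos (by positivity : (0 : ℝ) < 3 ^ n)]
      have a1 := hC x
      have a2 := mul_le_mul_of_nonneg_left (hC ((3 : ℝ) ^ n • x))
        (by positivity : (0 : ℝ) ≤ 3 ^ n)
      linarith
    have h2 : (1 + ‖x‖) ^ 2 ≤ 9 := by nlinarith [norm_nonneg x]
    calc |HH n i j x| * (1 + ‖x‖) ^ 2 ≤ C * (1 + 3 ^ n) * 9 :=
          mul_le_mul h1 h2 (by positivity) (by positivity)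
      _ ≤ _ := by
        have : 0 ≤ 261 * mass := by positivity
        linarith

/-- the integrand -/
noncomputable def QQ (n : ℕ) (x : E3) : ℝ := PP fun a => HH n (a + 1) (a + 2) x

lemma QQ_eq (n : ℕ) (x : E3) :
    QQ n x = max 0 (-(HH n 1 2 x * HH n 2 0 x * HH n 0 1 x)) := rfl

lemma QQ_nonneg (n : ℕ) (x : E3) : 0 ≤ QQ n x := le_max_left _ _

lemma QQ_int (n : ℕ) : Integrable (QQ n) := by
  obtain ⟨M0, h00, h0⟩ := HH_bdd n 1 2
  obtain ⟨M1, h10, h1⟩ := HH_bdd n 2 0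
  obtain ⟨M2, h20, h2⟩ := HH_bdd n 0 1
  have hI : Integrable fun x : E3 => (1 + ‖x‖) ^ (-(6 : ℝ)) := by
    apply integrable_one_add_norm
    rw [finrank_euclideanSpace, Fintype.card_fin]
    norm_num
  refine (hI.const_mul (M0 * M1 * M2)).mono' ?_ (ae_of_all _ fun x => ?_)
  · apply Continuous.aestronglyMeasurable
    have a1 := HH_cont n 1 2
    have a2 := HH_cont n 2 0
    have a3 := HH_cont n 0 1
    have : QQ n = fun x => max 0 (-(HH n 1 2 x * HH n 2 0 x * HH n 0 1 x)) := rfl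
    rw [this]
    fun_prop
  · rw [Real.norm_eq_abs, abs_of_nonneg (QQ_nonneg n x), QQ_eq]
    refine max_le (by positivity) ?_
    refine (neg_le_abs _).trans ?_
    rw [abs_mul, abs_mul]
    have e : M0 * M1 * M2 * (1 + ‖x‖) ^ (-(6 : ℝ)) =
        M0 / (1 + ‖x‖) ^ 2 * (M1 / (1 + ‖x‖) ^ 2) * (M2 / (1 + ‖x‖) ^ 2) := by
      rw [Real.rpow_neg (by positivity), show (6 : ℝ) = ((6 : ℕ) : ℝ) by norm_num,
        Real.rpow_natCast]
      field_simp
    rw [e]
    have b0 : 0 ≤ M0 / (1 + ‖x‖) ^ 2 := by positivity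
    have b1 : 0 ≤ M1 / (1 + ‖x‖) ^ 2 := by positivity
    exact mul_le_mul (mul_le_mul (h0 x) (h1 x) (abs_nonneg _) b0) (h2 x) (abs_nonneg _)
      (mul_nonneg b0 b1)

/-- centre of the `k`-th ball -/
noncomputable def cen (k : ℕ) : E3 := WithLp.toLp 2 fun _ => 2 * ((3 : ℝ) ^ k)⁻¹

/-- the `k`-th ball -/
noncomputable def bal (k : ℕ) : Set E3 := Metric.ball (cen k) (((3 : ℝ) ^ k)⁻¹)

lemma bal_coord {k : ℕ} {x : E3} (hx : x ∈ bal k) (i : Fin 3) :
    ((3 : ℝ) ^ k)⁻¹ < x i ∧ x i < 3 * ((3 : ℝ) ^ k)⁻¹ := by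
  have h1 : ‖x - cen k‖ < ((3 : ℝ) ^ k)⁻¹ := by
    rw [← dist_eq_norm]
    exact hx
  have h2 := abs_lt.1 (lt_of_le_of_lt (abs_apply_le (x - cen k) i) h1)
  have h3 : (x - cen k) i = x i - 2 * ((3 : ℝ) ^ k)⁻¹ := rfl
  rw [h3] at h2
  constructor <;> linarith [h2.1, h2.2]

lemma bal_meas (k : ℕ) : MeasurableSet (bal k) := measurableSet_ball

lemma bal_disj {k l : ℕ} (h : k ≠ l) : Disjoint (bal k) (bal l) := by
  wlog hkl : k < l generalizing k l
  · exact (this h.symm (lt_of_le_of_ne (not_lt.1 hkl) h.symm)).symm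
  rw [Set.disjoint_left]
  intro x hx hy
  have h1 := (bal_coord hx 0).1
  have h2 := (bal_coord hy 0).2
  have h3 : 3 * ((3 : ℝ) ^ l)⁻¹ ≤ ((3 : ℝ) ^ k)⁻¹ := by
    have : (3 : ℝ) ^ (k + 1) ≤ 3 ^ l := pow_le_pow_right₀ (by norm_num) hkl
    rw [pow_succ] at this
    rw [← div_eq_mul_inv, div_le_iff₀ (by positivity), ← div_eq_inv_mul, le_div_iff₀ (by positivity)]
    linarith
  linarith

lemma bal_vol (k : ℕ) : volume.real (bal k) =
    (((3 : ℝ) ^ k)⁻¹) ^ 3 * volume.real (Metric.ball (0 : E3) 1) := by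
  unfold bal Measure.real
  rw [Measure.addHaar_ball _ _ (by positivity), finrank_euclideanSpace, Fintype.card_fin,
    ENNReal.toReal_mul, ENNReal.toReal_ofReal (by positivity)]

lemma diverge : ∃ c : ℝ, 0 < c ∧ ∃ k0 : ℕ, ∀ n : ℕ, k0 ≤ n → (n - k0 : ℝ) * c ≤ ∫ x, QQ n x := by
  obtain ⟨C0, hC00, hC0⟩ := GG_bdd 1 2
  obtain ⟨C1, hC10, hC1⟩ := GG_bdd 2 0
  obtain ⟨C2, hC20, hC2⟩ := GG_bdd 0 1
  have hm := mass_pos
  set C := C0 + C1 + C2 with hC
  have hCpos : 0 < C := by positivity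
  set v := volume.real (Metric.ball (0 : E3) 1) with hv
  have hvpos : 0 < v := by
    apply ENNReal.toReal_pos (Metric.measure_ball_pos _ _ one_pos).ne' measure_ball_lt_top.ne
  obtain ⟨k0, hk0⟩ : ∃ k0 : ℕ, ((3 : ℝ) ^ k0)⁻¹ < mass / (2744 * C) := by
    obtain ⟨k0, hk0⟩ := exists_pow_lt_of_lt_one (show 0 < mass / (2744 * C) by positivity)
      (show (3 : ℝ)⁻¹ < 1 by norm_num)
    exact ⟨k0, by rwa [← inv_pow]⟩
  refine ⟨(mass / 2744) ^ 3 * v, by positivity, k0, fun n hn => ?_⟩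
  have key : ∀ k ∈ Finset.Ico k0 n, ∀ x ∈ bal k, (mass / (2744 * ((3 : ℝ) ^ k)⁻¹)) ^ 3 ≤ QQ n x := by
    intro k hk x hx
    rw [Finset.mem_Ico] at hk
    set r := ((3 : ℝ) ^ k)⁻¹ with hr
    have hrpos : 0 < r := by positivity
    have hr0 : r < mass / (2744 * C) := by
      refine lt_of_le_of_lt ?_ hk0
      rw [hr]
      apply inv_anti₀ (by positivity)
      exact pow_le_pow_right₀ (by norm_num) hk.1
    have hrC : C ≤ mass / (2744 * r) := by
      rw [lt_div_iff₀ (by positivity)] at hr0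
      rw [le_div_iff₀ (by positivity)]
      linarith
    have ht : 2 ≤ (3 : ℝ) ^ n * r := by
      rw [hr, ← div_eq_mul_inv, le_div_iff₀ (by positivity)]
      have : (3 : ℝ) ^ (k + 1) ≤ 3 ^ n := pow_le_pow_right₀ (by norm_num) hk.2
      rw [pow_succ] at this
      have h3 : (0 : ℝ) < 3 ^ k := by positivity
      linarith
    have hlow : ∀ (i j : Fin 3) (Cij : ℝ), (∀ x, |GG i j x| ≤ Cij) → Cij ≤ C →
        mass / (2744 * r) ≤ -HH n i j x := by
      intro i j Cij hCij hle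
      have h1 := GG_low i j ht (x := (3 : ℝ) ^ n • x) (fun l => by
        have h2 := bal_coord hx l
        simp only [PiLp.smul_apply, smul_eq_mul]
        have h3 : (0 : ℝ) < 3 ^ n := by positivity
        constructor
        · exact (mul_lt_mul_of_pos_left h2.1 h3).le
        · have := (mul_lt_mul_of_pos_left h2.2 h3).le
          linarith)
      have h2 : (3 : ℝ) ^ n * (mass / (1372 * ((3 : ℝ) ^ n * r))) = mass / (1372 * r) := by
        field_simp
      have h3 := mul_le_mul_of_nonneg_left h1 (by positivity : (0 : ℝ) ≤ 3 ^ n)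
      rw [h2] at h3
      have h4 := le_abs_self (GG i j x)
      have h5 := hCij x
      unfold HH
      have h6 : mass / (1372 * r) = mass / (2744 * r) + mass / (2744 * r) := by
        field_simp
        norm_num
      linarith
    have l0 := hlow 1 2 C0 hC0 (by rw [hC]; linarith)
    have l1 := hlow 2 0 C1 hC1 (by rw [hC]; linarith)
    have l2 := hlow 0 1 C2 hC2 (by rw [hC]; linarith)
    rw [QQ_eq]
    refine le_trans ?_ (le_max_right _ _)
    set b := mass / (2744 * r) with hb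
    have hb0 : 0 < b := by positivity
    have e : -(HH n 1 2 x * HH n 2 0 x * HH n 0 1 x) =
      (-HH n 1 2 x) * (-HH n 2 0 x) * (-HH n 0 1 x) := by ring
    rw [e, show b ^ 3 = b * b * b by ring]
    exact mul_le_mul (mul_le_mul l0 l1 hb0.le (hb0.le.trans l0)) l2 hb0.le
      (mul_nonneg (hb0.le.trans l0) (hb0.le.trans l1))
  have h1 : ∑ k ∈ Finset.Ico k0 n, ∫ x in bal k, QQ n x ≤ ∫ x, QQ n x := by
    rw [← integral_biUnion_finset (Finset.Ico k0 n) (fun k _ => bal_meas k)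
      (fun k _ l _ hkl => bal_disj hkl) (fun k _ => (QQ_int n).integrableOn)]
    exact setIntegral_le_integral (QQ_int n) (ae_of_all _ fun x => QQ_nonneg n x)
  refine le_trans ?_ h1
  have h2 : ∀ k ∈ Finset.Ico k0 n, (mass / 2744) ^ 3 * v ≤ ∫ x in bal k, QQ n x := by
    intro k hk
    have h3 : ∫ x in bal k, (mass / (2744 * ((3 : ℝ) ^ k)⁻¹)) ^ 3 = (mass / 2744) ^ 3 * v := by
      rw [setIntegral_const, bal_vol, smul_eq_mul, ← hv]
      field_simp
    rw [← h3]
    refine setIntegral_mono_on ?_ (QQ_int n).integrableOn measurableSet_ball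
      (fun x hx => key k hk x hx)
    exact integrableOn_const measure_ball_lt_top.ne
  have h4 := Finset.sum_le_sum h2
  rw [Finset.sum_const, Nat.card_Ico, nsmul_eq_mul, Nat.cast_sub hn] at h4
  exact h4

end Pool.Agent.J4.H70.Maz
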