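import Mathlib
import Pool.Agent.J4.H70.Mazya.Diverge

/-!
The integral of `θ_i θ_j` over the unit sphere of `ℝ^3`, and the properties of `Φ`.
-/

set_option autoImplicit false
open MeasureTheory Real Set Filter Topology
open scoped ContDiff

namespace Pool.Agent.J4.H70.Maz

/-- the reflection in the `i`-th coordinate -/
noncomputable def refl (i : Fin 3) : E3 ≃ₗᵢ[ℝ] E3 :=
  LinearIsometryEquiv.piLpCongrRight 2 (fun k : Fin 3 =>
    if k = i then LinearIsometryEquiv.neg ℝ else LinearIsometryEquiv.refl ℝ ℝ)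

lemma refl_same (i : Fin 3) (x : E3) : refl i x i = -x i := by
  simp [refl]

lemma refl_ne {i j : Fin 3} (h : j ≠ i) (x : E3) : refl i x j = x j := by
  simp [refl, h]

/-- auxiliary function -/
noncomputable def psi (i j : Fin 3) (x : E3) : ℝ :=
  (‖x‖⁻¹ • x) i * (‖x‖⁻¹ • x) j * (if ‖x‖ < 1 then 1 else 0)

lemma psi_int {i j : Fin 3} (hij : i ≠ j) : ∫ x, psi i j x = 0 := by
  have h1 := (refl i).measurePreserving.integral_comp
    (refl i).toHomeomorph.measurableEmbedding (psi i j)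
  have h2 : ∀ x, psi i j (refl i x) = -psi i j x := by
    intro x
    unfold psi
    simp only [LinearIsometryEquiv.norm_map, PiLp.smul_apply, refl_same, refl_ne hij.symm,
      smul_eq_mul]
    ring
  simp_rw [h2] at h1
  rw [integral_neg] at h1
  linarith

lemma sphere_int {i j : Fin 3} (hij : i ≠ j) :
    ∫ θ, (θ : E3) i * (θ : E3) j ∂((volume : Measure E3).toSphere) = 0 := by
  have hdim : Module.finrank ℝ E3 = 3 := by rw [finrank_euclideanSpace, Fintype.card_fin]
  have h := (volume : Measure E3).measurePreserving_homeomorphUnitSphereProd.integral_comp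
    (Homeomorph.measurableEmbedding _)
    (fun p : Metric.sphere (0 : E3) 1 × Ioi (0 : ℝ) =>
      ((p.1 : E3) i * (p.1 : E3) j) * (if (p.2 : ℝ) < 1 then (1 : ℝ) else 0))
  have h1 : ∫ x : ({(0)}ᶜ : Set E3), (fun p : Metric.sphere (0 : E3) 1 × Ioi (0 : ℝ) =>
      ((p.1 : E3) i * (p.1 : E3) j) * (if (p.2 : ℝ) < 1 then (1 : ℝ) else 0))
      (homeomorphUnitSphereProd E3 x) ∂((volume : Measure E3).comap Subtype.val) = 0 := by
    have h2 : ∀ x : ({(0)}ᶜ : Set E3), (fun p : Metric.sphere (0 : E3) 1 × Ioi (0 : ℝ) =>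
      ((p.1 : E3) i * (p.1 : E3) j) * (if (p.2 : ℝ) < 1 then (1 : ℝ) else 0))
      (homeomorphUnitSphereProd E3 x) = psi i j (x : E3) := by
      intro x
      simp only [psi, homeomorphUnitSphereProd_apply_fst_coe,
        homeomorphUnitSphereProd_apply_snd_coe]
    simp_rw [h2]
    rw [integral_subtype_comap (measurableSet_singleton _).compl (fun x => psi i j x),
      restrict_compl_singleton, psi_int hij]
  rw [h1] at h
  rw [integral_prod_mul (fun θ : Metric.sphere (0 : E3) 1 => (θ : E3) i * (θ : E3) j)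
    (fun r : Ioi (0 : ℝ) => if (r : ℝ) < 1 then (1 : ℝ) else 0)] at h
  have h3 : ∫ r : Ioi (0 : ℝ), (if (r : ℝ) < 1 then (1 : ℝ) else 0)
      ∂(Measure.volumeIoiPow (Module.finrank ℝ E3 - 1)) = 1 / 3 := by
    have h4 : (fun r : Ioi (0 : ℝ) => if (r : ℝ) < 1 then (1 : ℝ) else 0) =
      (Iio (⟨1, mem_Ioi.2 one_pos⟩ : Ioi (0 : ℝ))).indicator (fun _ => (1 : ℝ)) := by
      funext r
      by_cases hr : (r : ℝ) < 1
      · rw [indicator_of_mem (show r ∈ Iio (⟨1, mem_Ioi.2 one_pos⟩ : Ioi (0 : ℝ)) from hr), if_pos hr]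
      · rw [indicator_of_notMem (show r ∉ Iio (⟨1, mem_Ioi.2 one_pos⟩ : Ioi (0 : ℝ)) from hr), if_neg hr]
    rw [h4, integral_indicator measurableSet_Iio, setIntegral_const, smul_eq_mul, mul_one,
      Measure.real, Measure.volumeIoiPow_apply_Iio, hdim, ENNReal.toReal_ofReal (by norm_num)]
    norm_num
  rw [h3] at h
  rcases mul_eq_zero.1 h.symm with h5 | h5
  · exact h5
  · norm_num at h5

/-- the nonlinearity as a function on `Fin 3 → ℝ` is locally Lipschitz -/
lemma PP_lip : LocallyLipschitz PP := by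
  have h1 : ContDiff ℝ 1 fun y : Fin 3 → ℝ => -(y 0 * y 1 * y 2) := by
    fun_prop
  have h2 : LocallyLipschitz fun y : Fin 3 → ℝ => -(y 0 * y 1 * y 2) := h1.locallyLipschitz
  exact h2.const_max 0

lemma PP_hom (t : ℝ) (ht : 0 < t) (y : Fin 3 → ℝ) : PP (t • y) = t ^ 3 * PP y := by
  unfold PP
  simp only [Pi.smul_apply, smul_eq_mul]
  rw [mul_max_of_nonneg _ _ (by positivity), mul_zero]
  congr 1
  ring

end Pool.Agent.J4.H70.Maz
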